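import Pool.Agent.Lib.MP_b5021c_nt.IfaceB

/-!
# MP_b5021c_nt, row A2C: a sum of moduli on the circle bounds the sum of the Mahler measures
-/

namespace Pool.Agent.B5.H19

open Polynomial Filter Topology Real

theorem circleIntegrable_log (p : ℂ[X]) : CircleIntegrable (fun z => Real.log ‖p.eval z‖) 0 1 :=
  p.intervalIntegrable_mahlerMeasure

/-- A2C. -/
theorem a2c : A2cS := by
  intro ι _ p q c hq hc h
  classical
  set s : Finset ι := Finset.univ.filter fun i => p i ≠ 0 with hs
  set T : ℝ := ∑ i ∈ s, (p i).mahlerMeasure with hT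
  have hsum : ∑ i, (p i).mahlerMeasure = T := by
    rw [hT, hs, Finset.sum_filter]
    refine Finset.sum_congr rfl fun i _ => ?_
    by_cases hi : p i = 0
    · simp [hi]
    · simp [hi]
  rw [hsum]
  have hMq : 0 < q.mahlerMeasure := mahlerMeasure_pos_of_ne_zero hq
  have hM : ∀ i ∈ s, 0 < (p i).mahlerMeasure := fun i hi =>
    mahlerMeasure_pos_of_ne_zero (Finset.mem_filter.1 hi).2
  rcases s.eq_empty_or_nonempty with hse | hsn
  · rw [hT, hse, Finset.sum_empty]
    positivity
  have hT0 : 0 < T := Finset.sum_pos hM hsn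
  -- the function
  set K : ℝ := ∑ i ∈ s, (p i).mahlerMeasure / T *
    (Real.log q.mahlerMeasure - Real.log (p i).mahlerMeasure) with hK
  set F : ℂ → ℝ := fun z => ∑ i ∈ s, (p i).mahlerMeasure / T *
    (Real.log ‖(p i).eval z‖ - Real.log ‖q.eval z‖) + K with hF
  set B : ℝ := q.mahlerMeasure * c / T - 1 with hB
  set bad : Set ℂ := {z | q.eval z = 0 ∨ ∃ i ∈ s, (p i).eval z = 0} with hbad
  have hbadf : bad.Finite := by
    have h1 : bad ⊆ (q.roots.toFinset : Set ℂ) ∪ ⋃ i ∈ s, ((p i).roots.toFinset : Set ℂ) := by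
      rintro z (hz | ⟨i, hi, hz⟩)
      · left
        rw [Finset.mem_coe, Multiset.mem_toFinset]
        exact (mem_roots hq).2 hz
      · right
        rw [Set.mem_iUnion₂]
        refine ⟨i, hi, ?_⟩
        rw [Finset.mem_coe, Multiset.mem_toFinset]
        exact (mem_roots (Finset.mem_filter.1 hi).2).2 hz
    refine Set.Finite.subset ?_ h1
    exact (Finset.finite_toSet _).union (s.finite_toSet.biUnion fun i _ => Finset.finite_toSet _)
  set F' : ℂ → ℝ := fun z => if z ∈ bad then B else F z with hF'
  have hFF : F =ᶠ[codiscreteWithin (Metric.sphere (0 : ℂ) |1|)] F' := by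
    rw [Filter.eventuallyEq_iff_exists_mem]
    refine ⟨badᶜ, compl_finite_mem_codiscreteWithin hbadf, fun z hz => ?_⟩
    rw [hF']
    exact (if_neg hz).symm
  have hint1 : ∀ i ∈ s, CircleIntegrable (fun z => (p i).mahlerMeasure / T *
      (Real.log ‖(p i).eval z‖ - Real.log ‖q.eval z‖)) 0 1 := fun i _ => by
    have := (circleIntegrable_log (p i)).sub (circleIntegrable_log q)
    exact this.const_mul _
  have hint : CircleIntegrable F 0 1 := by
    have h1 : CircleIntegrable (fun z => ∑ i ∈ s, (p i).mahlerMeasure / T *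
        (Real.log ‖(p i).eval z‖ - Real.log ‖q.eval z‖)) 0 1 := by
      exact CircleIntegrable.fun_sum s hint1
    exact h1.add (circleIntegrable_const K 0 1)
  have hint' : CircleIntegrable F' 0 1 := hint.congr_codiscreteWithin hFF
  have havg : circleAverage F 0 1 = 0 := by
    have h1 : circleAverage F 0 1 = circleAverage (fun z => ∑ i ∈ s, (p i).mahlerMeasure / T *
        (Real.log ‖(p i).eval z‖ - Real.log ‖q.eval z‖)) 0 1 + circleAverage (fun _ => K) 0 1 :=
      circleAverage_fun_add (CircleIntegrable.fun_sum s hint1) (circleIntegrable_const K 0 1)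
    rw [h1, circleAverage_const, circleAverage_fun_sum hint1, hK, ← Finset.sum_add_distrib]
    refine Finset.sum_eq_zero fun i _ => ?_
    have h2 : circleAverage (fun z => (p i).mahlerMeasure / T *
        (Real.log ‖(p i).eval z‖ - Real.log ‖q.eval z‖)) 0 1 =
        (p i).mahlerMeasure / T * (circleAverage (fun z => Real.log ‖(p i).eval z‖) 0 1 -
          circleAverage (fun z => Real.log ‖q.eval z‖) 0 1) := by
      rw [← circleAverage_fun_sub (circleIntegrable_log (p i)) (circleIntegrable_log q)]
      exact circleAverage_fun_smul (a := (p i).mahlerMeasure / T)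
    rw [h2, ← logMahlerMeasure_def, ← logMahlerMeasure_def, logMahlerMeasure_eq_log_MahlerMeasure,
      logMahlerMeasure_eq_log_MahlerMeasure]
    ring
  have hle : ∀ z ∈ Metric.sphere (0 : ℂ) |1|, F' z ≤ B := by
    intro z hz
    rw [hF']
    simp only
    split_ifs with hzb
    · exact le_rfl
    · have hz1 : ‖z‖ = 1 := by simpa using hz
      have hqz : 0 < ‖q.eval z‖ := norm_pos_iff.2 fun h0 => hzb (Or.inl h0)
      have hpz : ∀ i ∈ s, 0 < ‖(p i).eval z‖ := fun i hi =>
        norm_pos_iff.2 fun h0 => hzb (Or.inr ⟨i, hi, h0⟩)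
      have h3 : F z = ∑ i ∈ s, (p i).mahlerMeasure / T *
          Real.log (‖(p i).eval z‖ * q.mahlerMeasure / (‖q.eval z‖ * (p i).mahlerMeasure)) := by
        rw [hF, hK]
        simp only
        rw [← Finset.sum_add_distrib]
        refine Finset.sum_congr rfl fun i hi => ?_
        rw [Real.log_div (mul_pos (hpz i hi) hMq).ne' (mul_pos hqz (hM i hi)).ne',
          Real.log_mul (hpz i hi).ne' hMq.ne', Real.log_mul hqz.ne' (hM i hi).ne']
        ring
      rw [h3]
      calc ∑ i ∈ s, (p i).mahlerMeasure / T *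
            Real.log (‖(p i).eval z‖ * q.mahlerMeasure / (‖q.eval z‖ * (p i).mahlerMeasure))
          ≤ ∑ i ∈ s, (p i).mahlerMeasure / T *
            (‖(p i).eval z‖ * q.mahlerMeasure / (‖q.eval z‖ * (p i).mahlerMeasure) - 1) := by
            refine Finset.sum_le_sum fun i hi => ?_
            refine mul_le_mul_of_nonneg_left ?_ (div_pos (hM i hi) hT0).le
            exact Real.log_le_sub_one_of_pos
              (div_pos (mul_pos (hpz i hi) hMq) (mul_pos hqz (hM i hi)))
        _ = q.mahlerMeasure / (T * ‖q.eval z‖) * ∑ i ∈ s, ‖(p i).eval z‖ - 1 := by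
            have h4 : ∀ i ∈ s, (p i).mahlerMeasure / T *
                (‖(p i).eval z‖ * q.mahlerMeasure / (‖q.eval z‖ * (p i).mahlerMeasure) - 1) =
                q.mahlerMeasure / (T * ‖q.eval z‖) * ‖(p i).eval z‖ -
                  (p i).mahlerMeasure / T := by
              intro i hi
              have := (hM i hi).ne'
              field_simp
            rw [Finset.sum_congr rfl h4, Finset.sum_sub_distrib, ← Finset.mul_sum,
              ← Finset.sum_div, ← hT, div_self hT0.ne']
        _ ≤ q.mahlerMeasure / (T * ‖q.eval z‖) * (c * ‖q.eval z‖) - 1 := by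
            have h5 : ∑ i ∈ s, ‖(p i).eval z‖ ≤ c * ‖q.eval z‖ :=
              (Finset.sum_le_sum_of_subset_of_nonneg (Finset.subset_univ s)
                fun _ _ _ => norm_nonneg _).trans (h z hz1)
            have h6 : 0 ≤ q.mahlerMeasure / (T * ‖q.eval z‖) := by positivity
            linarith [mul_le_mul_of_nonneg_left h5 h6]
        _ = B := by
            rw [hB]
            field_simp
  have hfin := circleAverage_mono_on_of_le_circle hint' hle
  rw [← circleAverage_congr_codiscreteWithin hFF one_ne_zero, havg, hB] at hfin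
  have h7 : 1 ≤ q.mahlerMeasure * c / T := by linarith
  rw [le_div_iff₀ hT0] at h7
  linarith

end Pool.Agent.B5.H19
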