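import Pool.Agent.Lib.MP_b5021c_nt.IfaceS2a

/-!
# MP_b5021c_nt, row T_MEP: mean over the circle, one pole and one factor `z`
-/

namespace Pool.Agent.B5.H19

open Polynomial Metric Real

/-- (MEP) mean over the circle, one pole and one factor `z`. -/
theorem mep : MepS := by
  intro r s T c hT hs
  have hT0 : T ≠ 0 := norm_pos_iff.mp (by linarith)
  have ha : ‖T⁻¹‖ < 1 := by rw [norm_inv]; exact inv_lt_one_of_one_lt₀ hT
  have hne : ∀ z : ℂ, ‖z‖ = 1 → 1 - T * z ≠ 0 := by
    intro z hz h0
    have h1 : T * z = 1 := (sub_eq_zero.mp h0).symm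
    have h2 : ‖T‖ * ‖z‖ = 1 := by rw [← norm_mul, h1, norm_one]
    rw [hz, mul_one] at h2
    linarith
  have hne2 : ∀ z : ℂ, ‖z‖ = 1 → z - T⁻¹ ≠ 0 := by
    intro z hz h0
    have h1 : z = T⁻¹ := sub_eq_zero.mp h0
    rw [h1] at hz
    linarith
  rw [circleAverage_eq_circleIntegral one_ne_zero]
  have h1 : (∮ z in C(0, 1), (z - 0)⁻¹ • (z * (c / (1 - T * z) + r.eval z / s.eval z))) =
      ∮ z in C(0, 1), (-(c / T) * (z - T⁻¹)⁻¹ + r.eval z / s.eval z) := by
    apply circleIntegral.integral_congr zero_le_one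
    intro z hz
    have hz1 : ‖z‖ = 1 := by simpa using hz
    have hz0 : z ≠ 0 := norm_pos_iff.mp (by linarith)
    have h2 := hne z hz1
    have h3 := hne2 z hz1
    change (z - 0)⁻¹ * (z * (c / (1 - T * z) + r.eval z / s.eval z)) =
      -(c / T) * (z - T⁻¹)⁻¹ + r.eval z / s.eval z
    rw [sub_zero, ← mul_assoc, inv_mul_cancel₀ hz0, one_mul]
    congr 1
    have h4 : 1 - T * z = -T * (z - T⁻¹) := by
      rw [mul_sub, neg_mul T T⁻¹, mul_inv_cancel₀ hT0]; ring
    rw [h4, neg_mul, div_neg, neg_mul, ← div_eq_mul_inv, div_div]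
  have hds : DifferentiableOn ℂ (fun z => r.eval z / s.eval z) (closedBall (0 : ℂ) 1) := by
    apply DifferentiableOn.div r.differentiable.differentiableOn s.differentiable.differentiableOn
    intro w hw
    exact hs w (by simpa using hw)
  have hi1 : CircleIntegrable (fun z : ℂ => -(c / T) * (z - T⁻¹)⁻¹) 0 1 := by
    apply ContinuousOn.circleIntegrable zero_le_one
    apply ContinuousOn.mul continuousOn_const
    apply ContinuousOn.inv₀ (by fun_prop)
    intro z hz
    exact hne2 z (by simpa using hz)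
  have hi2 : CircleIntegrable (fun z : ℂ => r.eval z / s.eval z) 0 1 := by
    apply ContinuousOn.circleIntegrable zero_le_one
    exact hds.continuousOn.mono sphere_subset_closedBall
  have h0 : (∮ z in C(0, 1), r.eval z / s.eval z) = 0 := by
    apply Complex.circleIntegral_eq_zero_of_differentiable_on_off_countable zero_le_one
      Set.countable_empty hds.continuousOn
    intro z hz
    exact (hds z (ball_subset_closedBall hz.1)).differentiableAt
      (closedBall_mem_nhds_of_mem hz.1)
  rw [h1, circleIntegral.integral_add hi1 hi2, h0, add_zero, circleIntegral.integral_const_mul,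
    circleIntegral.integral_sub_inv_of_mem_ball (by simpa using ha), smul_eq_mul]
  have hpi : (2 * (π : ℂ) * Complex.I) ≠ 0 := by
    simp [Real.pi_ne_zero]
  rw [mul_comm (-(c / T)), ← mul_assoc, inv_mul_cancel₀ hpi, one_mul]

end Pool.Agent.B5.H19
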