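import Pool.Agent.Lib.MP_b5021c_nt.IfaceE2
import Pool.Agent.Lib.MP_b5021c_nt.B.H71.I2c

/-!
# Board b5, row E2_TPU
-/

namespace Pool.Agent.B5.H19

open AddMonoidAlgebra
open Pool.Agent.B5.H71

/-- Row TPU: unitarity `X V^# + X^# V = V V^#`. -/
theorem tpu (hU : UnitAS) (hE : EvRS) (hZ : ZfinS) : TpuS := by
  intro O _ _ _ _ P L _ _ _ _ _ phi D S i0 eta h cc
  have hD : ∀ a ∈ supp D, co phi i0 a = 0 ∨ co phi i0 a = 1 := fun a ha => cc.dd.bin a ha i0
  have h0 : D.coeff 0 ≠ 0 := cc.dd.st.1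
  have hS : D.coeff S ≠ 0 := cc.ray.1
  have hun := cc.dd.un
  have hdec := decomp (co phi i0) S h D hD
  generalize res (Ker (co phi i0)) D = X at hdec ⊢
  generalize res (Ker (co phi i0)) (single (-S) 1 * D) = Y at hdec
  obtain ⟨m, u, hX', hY'⟩ := pair hU hE hZ (co phi i0) S h D X Y hdec hD h0 hS hun
  have hVV : cl (co phi i0) S h eta D = X + cst (eta : RO O) * Y := by
    conv_lhs => rw [hdec]
    rw [map_add, map_mul, cl_em, cl_em, cl_single, prj_self, h, zpow_one, one_mul]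
    rfl
  have hee : (cst ((eta⁻¹ : (RO O)ˣ) : RO O) : AO O (Ker (co phi i0))) * cst (eta : RO O) = 1 := by
    rw [← cst_mul, Units.inv_mul, cst_one]
  have hcs : ∀ d : RO O, sharp (cst d : AO O (Ker (co phi i0))) = cst (rsh d) := by
    intro d; rw [cst, sharp_single, neg_zero]; rfl
  have hVs : sharp (X + cst (eta : RO O) * Y) =
      cst ((eta⁻¹ : (RO O)ˣ) : RO O) * single m u * (X + cst (eta : RO O) * Y) := by
    rw [map_add, map_mul, hX', hY', hcs, rsh_unit hE hZ]
    linear_combination (-(Y * single m u)) * hee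
  rw [hVV, hVs, hX']
  linear_combination (-(Y * single m u * (X + cst (eta : RO O) * Y))) * hee

end Pool.Agent.B5.H19
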