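import Pool.Agent.Lib.MP_b5021c_nt.IfaceS2a
import Pool.Agent.Lib.MP_b5021c_nt.IfaceS4a

/-!
# MP_b5021c_nt, row U_PUC: a pure factor at a load of type B forces a large residue
-/

namespace Pool.Agent.B5.H19

open Polynomial Metric Real

private lemma real_of_eq {y : ℂ} (h : ‖1 + y‖ + ‖y‖ = 1) : (starRingEnd ℂ) y = y := by
  have h1 : ‖1 + y‖ = 1 - ‖y‖ := by linarith
  have h2 : ‖1 + y‖ ^ 2 = (1 - ‖y‖) ^ 2 := by rw [h1]
  have h3 : ‖1 + y‖ ^ 2 = 1 + 2 * y.re + ‖y‖ ^ 2 := by
    rw [← Complex.normSq_eq_norm_sq, ← Complex.normSq_eq_norm_sq, Complex.normSq_apply,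
      Complex.normSq_apply]
    simp
    ring
  have h4 : y.re = -‖y‖ := by nlinarith
  have h5 : ‖y‖ ^ 2 = y.re ^ 2 + y.im ^ 2 := by
    rw [← Complex.normSq_eq_norm_sq, Complex.normSq_apply]
    ring
  have h6 : y.im ^ 2 = 0 := by rw [h4] at h5; linarith [h5, sq_nonneg ‖y‖, neg_sq ‖y‖]
  have h7 : y.im = 0 := by simpa using h6
  exact Complex.conj_eq_iff_im.mpr h7

/-- (PUC) a pure factor at a load of type B forces a large residue. -/
theorem puc (h1 : MevS) (h2 : MepS) : PucS := by
  intro q f r s T c v hT hv hs hq hf hE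
  have hT0 : T ≠ 0 := norm_pos_iff.mp (by linarith)
  have hv0 : v ≠ 0 := norm_pos_iff.mp (by linarith)
  have hs0 : s.eval 0 ≠ 0 := hs 0 (by simp)
  have hne : ∀ z : ℂ, ‖z‖ = 1 → 1 - T * z ≠ 0 := by
    intro z hz h0
    have h1 : T * z = 1 := (sub_eq_zero.mp h0).symm
    have h2 : ‖T‖ * ‖z‖ = 1 := by rw [← norm_mul, h1, norm_one]
    rw [hz, mul_one] at h2
    linarith
  -- the three functions
  set F : ℂ → ℂ := fun z => z * ((v * c) / (1 - T * z) + (C v * r).eval z / s.eval z) with hF
  have hFr : ∀ z : ℂ, ‖z‖ = 1 → (starRingEnd ℂ) (F z) = F z := by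
    intro z hz
    apply real_of_eq
    have hz1 := hne z hz
    have hz1' : 1 - z * T ≠ 0 := by rw [mul_comm z T]; exact hz1
    have hsz := hs z hz.le
    have hqz : q.eval z = (1 - T * z) * s.eval z := by rw [hq]; simp
    have hfz : f.eval z = c * s.eval z + (1 - T * z) * r.eval z := by rw [hf]; simp
    have hqz0 : q.eval z ≠ 0 := by rw [hqz]; exact mul_ne_zero hz1 hsz
    have e1 : F z = v * z * f.eval z / q.eval z := by
      rw [hF, hqz, hfz]
      simp only [eval_mul, eval_C]
      field_simp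
    have e2 : 1 + F z = (q + C v * X * f).eval z / q.eval z := by
      rw [e1]
      simp only [eval_add, eval_mul, eval_C, eval_X]
      field_simp
    have e3 : ‖F z‖ = ‖f.eval z‖ / ‖q.eval z‖ := by
      rw [e1, norm_div, norm_mul, norm_mul, hv, hz, one_mul, one_mul]
    rw [e2, e3, norm_div, ← add_div, hE z hz, div_self (norm_ne_zero_iff.mpr hqz0)]
  have hMF : circleAverage F 0 1 = -(v * c / T) := h2 (C v * r) s T (v * c) hT hs
  -- conj
  have hconj : ∀ g : ℂ → ℂ, CircleIntegrable g 0 1 →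
      circleAverage (fun z => (starRingEnd ℂ) (g z)) 0 1 =
        (starRingEnd ℂ) (circleAverage g 0 1) := by
    intro g hg
    have := ContinuousLinearMap.circleAverage_comp_comm
      (Complex.conjCLE : ℂ →L[ℝ] ℂ) hg
    simpa [Function.comp_def] using this
  have hcont : ∀ (r' : ℂ[X]) (c' : ℂ), ContinuousOn
      (fun z => z * (c' / (1 - T * z) + r'.eval z / s.eval z)) (sphere (0 : ℂ) 1) := by
    intro r' c'
    apply ContinuousOn.mul continuousOn_id
    apply ContinuousOn.add
    · apply ContinuousOn.div continuousOn_const (by fun_prop)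
      intro z hz
      exact hne z (by simpa using hz)
    · apply ContinuousOn.div r'.continuous.continuousOn s.continuous.continuousOn
      intro z hz
      exact hs z (by simpa using (show ‖z‖ = 1 by simpa using hz).le)
  have hFi : CircleIntegrable F 0 1 :=
    ContinuousOn.circleIntegrable zero_le_one (hcont (C v * r) (v * c))
  -- F real: mean real
  have hx : (starRingEnd ℂ) (v * c / T) = v * c / T := by
    have e1 := hconj F hFi
    have e2 : circleAverage (fun z => (starRingEnd ℂ) (F z)) 0 1 = circleAverage F 0 1 := by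
      apply circleAverage_congr_sphere
      intro z hz
      exact hFr z (by simpa using hz)
    rw [e2, hMF, map_neg] at e1
    exact (neg_injective e1).symm
  -- the function H = z F
  set H : ℂ → ℂ := fun z => z * ((v * c / T) / (1 - T * z) +
    (C (v) * X * r - C (v * c / T) * s).eval z / s.eval z) with hH
  have hHF : ∀ z : ℂ, ‖z‖ = 1 → H z = z * F z := by
    intro z hz
    have hz1 := hne z hz
    have hz1' : 1 - z * T ≠ 0 := by rw [mul_comm z T]; exact hz1
    have hsz := hs z hz.le
    rw [hH, hF]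
    simp only [eval_mul, eval_C, eval_X, eval_sub]
    field_simp
    ring
  have hMH : circleAverage H 0 1 = -((v * c / T) / T) := h2 _ s T (v * c / T) hT hs
  have hHi : CircleIntegrable H 0 1 :=
    ContinuousOn.circleIntegrable zero_le_one (hcont _ (v * c / T))
  -- the function G = F / z, as a sum
  set G1 : ℂ → ℂ := fun z => z * ((v * c * T) / (1 - T * z) + (0 : ℂ[X]).eval z / s.eval z) with hG1
  set G2 : ℂ → ℂ := fun z => (C (v * c) * s + C v * r).eval z / s.eval z with hG2
  have hG : ∀ z : ℂ, ‖z‖ = 1 → (starRingEnd ℂ) (H z) = G1 z + G2 z := by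
    intro z hz
    have hz1 := hne z hz
    have hz1' : 1 - z * T ≠ 0 := by rw [mul_comm z T]; exact hz1
    have hsz := hs z hz.le
    have hz0 : z ≠ 0 := norm_pos_iff.mp (by linarith)
    have hzz : (starRingEnd ℂ) z * z = 1 := by
      rw [mul_comm, Complex.mul_conj, Complex.normSq_eq_norm_sq, hz]; simp
    rw [hHF z hz, map_mul, hFr z hz, hF, hG1, hG2]
    simp only [eval_mul, eval_C, eval_add, eval_zero, zero_div, add_zero]
    rw [← mul_assoc, hzz, one_mul]
    field_simp
    ring
  have hM1 : circleAverage G1 0 1 = -(v * c * T / T) := h2 0 s T (v * c * T) hT hs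
  have hM2 : circleAverage G2 0 1 = (C (v * c) * s + C v * r).eval 0 / s.eval 0 := h1 _ s hs
  have hG1i : CircleIntegrable G1 0 1 :=
    ContinuousOn.circleIntegrable zero_le_one (hcont _ (v * c * T))
  have hG2i : CircleIntegrable G2 0 1 := by
    apply ContinuousOn.circleIntegrable zero_le_one
    apply ContinuousOn.div (Polynomial.continuous _).continuousOn s.continuous.continuousOn
    intro z hz
    exact hs z (by simpa using (show ‖z‖ = 1 by simpa using hz).le)
  have hsum : (starRingEnd ℂ) (-((v * c / T) / T)) =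
      -(v * c * T / T) + (C (v * c) * s + C v * r).eval 0 / s.eval 0 := by
    rw [← hMH, ← hconj H hHi, ← hM1, ← hM2, ← circleAverage_fun_add hG1i hG2i]
    apply circleAverage_congr_sphere
    intro z hz
    exact hG z (by simpa using hz)
  simp only [eval_add, eval_mul, eval_C] at hsum
  have hq0 : q.eval 0 = s.eval 0 := by rw [hq]; simp
  have hf0 : f.eval 0 = c * s.eval 0 + r.eval 0 := by rw [hf]; simp
  -- write x := v c / T
  set x : ℂ := v * c / T with hxdef
  have hvc : v * c = x * T := by rw [hxdef]; field_simp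
  have hcT0 : (starRingEnd ℂ) T ≠ 0 := by simpa using hT0
  have hkey : v * f.eval 0 = (x * T - x / (starRingEnd ℂ) T) * s.eval 0 := by
    rw [map_neg, map_div₀, hx] at hsum
    have e1 : v * r.eval 0 / s.eval 0 = -(x / (starRingEnd ℂ) T) := by
      have e2 : (v * c * s.eval 0 + v * r.eval 0) / s.eval 0 =
          v * c + v * r.eval 0 / s.eval 0 := by field_simp
      rw [e2, mul_div_assoc (v * c) T T, div_self hT0] at hsum
      rw [hsum]; ring
    have e3 : v * r.eval 0 = -(x / (starRingEnd ℂ) T) * s.eval 0 := by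
      rw [← e1]; field_simp
    rw [hf0, mul_add, e3, ← mul_assoc, hvc]
    ring
  have hn1 : ‖f.eval 0‖ = ‖x * T - x / (starRingEnd ℂ) T‖ * ‖s.eval 0‖ := by
    rw [← norm_mul, ← hkey, norm_mul, hv, one_mul]
  have hn2 : ‖c‖ = ‖x‖ * ‖T‖ := by
    rw [← norm_mul, ← hvc, norm_mul, hv, one_mul]
  have hn3 : x * T - x / (starRingEnd ℂ) T =
      x * (((‖T‖ ^ 2 - 1 : ℝ) : ℂ)) / (starRingEnd ℂ) T := by
    have e1 : T * (starRingEnd ℂ) T = ((‖T‖ ^ 2 : ℝ) : ℂ) := by
      rw [Complex.mul_conj, Complex.normSq_eq_norm_sq]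
    push_cast at e1 ⊢
    rw [eq_div_iff hcT0, sub_mul, div_mul_cancel₀ _ hcT0, mul_assoc, e1]
    ring
  rw [hn1, hq0, hn2, hn3, norm_div, norm_mul, RCLike.norm_conj, Complex.norm_real]
  apply mul_le_mul_of_nonneg_right _ (norm_nonneg _)
  have hTp : 0 < ‖T‖ := by linarith
  have h9 : (0 : ℝ) ≤ ‖T‖ ^ 2 - 1 := by nlinarith
  rw [Real.norm_of_nonneg h9, div_le_iff₀ hTp]
  nlinarith [norm_nonneg x, mul_nonneg (norm_nonneg x) hTp.le]

end Pool.Agent.B5.H19
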